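import Pool.Agent.N356.SP.DefsK

set_option autoImplicit false

/-! Project LK, GK13b: the sum of the higher terms. -/

namespace Pool.Agent.N987.LK

open Finset Pool.Agent.N356.SP

/-- The recursion of the binomial coefficients. -/
theorem choose_rec (k j : ℕ) (h : j ≤ 2 * k) :
    ((2 * k).choose (j + 1) : ℝ) * ((j : ℝ) + 1) =
      ((2 * k).choose j : ℝ) * (2 * (k : ℝ) - j) := by
  have h1 := Nat.choose_succ_right_eq (2 * k) j
  have h2 : (((2 * k).choose (j + 1) * (j + 1) : ℕ) : ℝ) =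
      (((2 * k).choose j * (2 * k - j) : ℕ) : ℝ) := by rw [h1]
  push_cast [Nat.cast_sub h] at h2
  exact h2

/-- Majorant of the term `TK`. -/
noncomputable def U (k : ℕ) (s l y : ℝ) (j : ℕ) : ℝ :=
  ((2 * k).choose j : ℝ) / s ^ j * l ^ (j - 2) * y ^ j

theorem U_nonneg (k : ℕ) {s l y : ℝ} (hs : 0 < s) (hl : 0 ≤ l) (hy : 0 ≤ y) (j : ℕ) :
    0 ≤ U k s l y j := by
  unfold U; positivity

theorem U_succ (k : ℕ) {s l y : ℝ} (hs : 0 < s) (j : ℕ) (h2 : 2 ≤ j) (h : j ≤ 2 * k) :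
    U k s l y (j + 1) * (((j : ℝ) + 1) * s) =
      U k s l y j * ((2 * (k : ℝ) - j) * l * y) := by
  unfold U
  have h1 := choose_rec k j h
  have h3 : j + 1 - 2 = j - 2 + 1 := by omega
  rw [h3, pow_succ l, pow_succ y, pow_succ s]
  field_simp
  linear_combination (l ^ (j - 2) * y ^ j * l * y) * h1

/-- a step with a general bound for the ratio -/
theorem U_step (k : ℕ) {s l y : ℝ} (hs : 0 < s) (hl : 0 ≤ l) (hy : 0 ≤ y) (j : ℕ) (h2 : 2 ≤ j)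
    (h : j ≤ 2 * k) (c : ℝ) (hc : (2 * (k : ℝ) - j) * l ≤ c * s) :
    U k s l y (j + 1) ≤ U k s l y j * (c * y / ((j : ℝ) + 1)) := by
  have h1 := U_succ k (l := l) (y := y) hs j h2 h
  have h3 : 0 < ((j : ℝ) + 1) * s := by positivity
  have h4 := U_nonneg k hs hl hy j
  have h5 : U k s l y (j + 1) * (((j : ℝ) + 1) * s) ≤
      (U k s l y j * (c * y / ((j : ℝ) + 1))) * (((j : ℝ) + 1) * s) := by
    rw [h1]
    have h6 : (U k s l y j * (c * y / ((j : ℝ) + 1))) * (((j : ℝ) + 1) * s) =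
        U k s l y j * (c * s * y) := by field_simp
    rw [h6]
    exact mul_le_mul_of_nonneg_left (mul_le_mul_of_nonneg_right hc hy) h4
  exact le_of_mul_le_mul_right h5 h3

/-- The term `TK` is at most its majorant. -/
theorem TK_le (k : ℕ) (hk : 6 ≤ k) (hlam : lam k ≤ (2 - 7 / (4 * (k:ℝ))) ^ (k - 1)) {X : ℝ}
    (hX : 0 ≤ X) (j : ℕ) (hj : 2 ≤ j) :
    TK k j X ≤ U k (√((2 * k).choose 2 : ℝ)) (√(2 - 7 / (4 * (k:ℝ)))) (√X) j := by
  have hkR : (6 : ℝ) ≤ (k : ℝ) := by exact_mod_cast hk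
  have hjR : (2 : ℝ) ≤ (j : ℝ) := by exact_mod_cast hj
  have hD : (0 : ℝ) < ((2 * k).choose 2 : ℝ) := by
    exact_mod_cast Nat.choose_pos (by omega)
  have hl : (0 : ℝ) < 2 - 7 / (4 * (k:ℝ)) := by
    have : 7 / (4 * (k:ℝ)) ≤ 1 := by
      rw [div_le_one (by positivity)]; linarith
    linarith
  have hlam0 : 0 ≤ lam k := by unfold lam; positivity
  have e1 : ((2 * k).choose 2 : ℝ) ^ (-(j:ℝ) / 2) = (√((2 * k).choose 2 : ℝ) ^ j)⁻¹ := by
    rw [neg_div, Real.rpow_neg hD.le, show (j:ℝ) / 2 = (1 / 2) * (j:ℝ) by ring,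
      Real.rpow_mul hD.le, ← Real.sqrt_eq_rpow, Real.rpow_natCast]
  have e2 : X ^ ((j:ℝ) / 2) = √X ^ j := by
    rw [show (j:ℝ) / 2 = (1 / 2) * (j:ℝ) by ring,
      Real.rpow_mul hX, ← Real.sqrt_eq_rpow, Real.rpow_natCast]
  have e3 : lam k ^ (((j:ℝ) - 2) / (2 * ((k:ℝ) - 1))) ≤ √(2 - 7 / (4 * (k:ℝ))) ^ (j - 2) := by
    have hexp : 0 ≤ ((j:ℝ) - 2) / (2 * ((k:ℝ) - 1)) := by
      apply div_nonneg <;> linarith
    calc lam k ^ (((j:ℝ) - 2) / (2 * ((k:ℝ) - 1)))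
        ≤ ((2 - 7 / (4 * (k:ℝ))) ^ (k - 1)) ^ (((j:ℝ) - 2) / (2 * ((k:ℝ) - 1))) :=
          Real.rpow_le_rpow hlam0 hlam hexp
      _ = √(2 - 7 / (4 * (k:ℝ))) ^ (j - 2) := by
          rw [← Real.rpow_natCast (2 - 7 / (4 * (k:ℝ))) (k - 1), ← Real.rpow_mul hl.le,
            ← Real.rpow_natCast (√(2 - 7 / (4 * (k:ℝ)))) (j - 2), Real.sqrt_eq_rpow,
            ← Real.rpow_mul hl.le]
          congr 1
          rw [Nat.cast_sub (by omega : 1 ≤ k), Nat.cast_sub hj]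
          push_cast
          have : (k:ℝ) - 1 ≠ 0 := by linarith
          field_simp
  unfold TK U
  rw [e1, e2, div_eq_mul_inv]
  exact mul_le_mul_of_nonneg_right (mul_le_mul_of_nonneg_left e3 (by positivity)) (by positivity)

/-- geometric tail -/
theorem tail (u : ℕ → ℝ) (r : ℝ) (n : ℕ)
    (h : ∀ j, j < n → u (j + 1) ≤ r * u j) :
    (1 - r) * ∑ i ∈ range n, u i ≤ u 0 - u n := by
  induction n with
  | zero => simp
  | succ n ih =>
    rw [sum_range_succ, mul_add]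
    have h1 := ih (fun j hj => h j (by omega))
    have h2 := h n (by omega)
    nlinarith


theorem aux_a (K : ℝ) : (2 * K - 2) * (2 * K - 3) * K + 2 * (K - 1) =
    (K - 1) ^ 2 * (2 * (2 * K - 1)) := by ring

theorem aux_b (K : ℝ) : (2 * K - 4) * (2 * K - 5) * K + 4 * (K - 2) =
    (K - 2) ^ 2 * (2 * (2 * K - 1)) := by ring

theorem aux_c (K : ℝ) : (2 * K - 4) ^ 2 * K + (13 / 4 * K - 49 / 8) =
    (K - 7 / 4) ^ 2 * (2 * (2 * K - 1)) := by ring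

theorem aux_d (κ : ℝ) : 2 * (2 - 7 * κ / 4) ≤ (2 - 7 * κ / 8) ^ 2 := by
  nlinarith [sq_nonneg κ]

theorem aux_e (K j : ℝ) (h1 : 1 ≤ j) (h2 : j ≤ 2 * K) : (2 * K - j) ^ 2 ≤ 2 * (K * (2 * K - 1)) := by
  have h5 : (2 * K - j) ^ 2 ≤ (2 * K - 1) ^ 2 :=
    pow_le_pow_left₀ (by linarith) (by linarith) 2
  nlinarith

theorem aux_y (X y : ℝ) (n : ℕ) (hX : 0 ≤ X) (h : y ^ 2 = X) :
    X ^ n * y ≤ (X ^ n + X ^ (n + 1)) / 2 := by
  have h1 : 0 ≤ X ^ n * (1 - y) ^ 2 := by positivity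
  have h2 : X ^ (n + 1) = X ^ n * y ^ 2 := by rw [h]; ring
  rw [h2]
  linarith [show X ^ n * (1 - y) ^ 2 = X ^ n - 2 * (X ^ n * y) + X ^ n * y ^ 2 by ring]

theorem aux_l (l : ℝ) (h0 : 0 < l) (h2 : l ≤ 2) : l ^ 2 ≤ 4 := by nlinarith

theorem aux_r (y j : ℝ) (hy : y ≤ 1304 / 1000) (hj : 0 ≤ j) :
    2 * y ≤ 2608 / 10000 * (9 + j + 1) := by nlinarith

/-- GK13b: the sum of the higher terms -/
theorem sum_TK (hlam : ∀ {k : ℕ}, 6 ≤ k → lam k ≤ (2 - 7 / (4 * (k:ℝ))) ^ (k - 1)) {k : ℕ}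
    (hk : 6 ≤ k) {X : ℝ} (hX0 : 0 ≤ X) (hX1 : X ≤ 17 / 10) :
    1 + X + 9 / 100 * X ^ 2 + ∑ j ∈ Icc 4 (2 * k), TK k j X ≤ Nb (1 / k) X := by
  have hT : ∀ j ∈ Icc 4 (2 * k), TK k j X ≤
      U k (√((2 * k).choose 2 : ℝ)) (√(2 - 7 / (4 * (k:ℝ)))) (√X) j := by
    intro j hj
    exact TK_le k hk (hlam hk) hX0 j (by have := (mem_Icc.1 hj).1; omega)
  have hK6 : (6 : ℝ) ≤ (k : ℝ) := by exact_mod_cast hk
  set K : ℝ := (k:ℝ) with hK
  set κ : ℝ := 1 / K with hκ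
  have hKκ : K * κ = 1 := by rw [hκ]; field_simp
  have hκ0 : 0 < κ := by rw [hκ]; positivity
  have hκ6 : κ ≤ 1 / 6 := by
    rw [hκ]; exact one_div_le_one_div_of_le (by norm_num) hK6
  have hDeq : ((2 * k).choose 2 : ℝ) = K * (2 * K - 1) := by
    rw [Nat.cast_choose_two]; push_cast; ring
  have hD : (0 : ℝ) < ((2 * k).choose 2 : ℝ) := by
    exact_mod_cast Nat.choose_pos (by omega)
  have hleq : 2 - 7 / (4 * K) = 2 - 7 * κ / 4 := by rw [hκ]; ring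
  rw [hleq] at hT
  set D : ℝ := ((2 * k).choose 2 : ℝ) with hDdef
  set l : ℝ := 2 - 7 * κ / 4 with hl
  have hl0 : 0 < l := by rw [hl]; linarith
  have hl2 : l ≤ 2 := by rw [hl]; linarith
  set s : ℝ := √D with hs
  set w : ℝ := √l with hw
  set y : ℝ := √X with hy
  have hs0 : 0 < s := Real.sqrt_pos.2 hD
  have hw0 : 0 ≤ w := Real.sqrt_nonneg _
  have hy0 : 0 ≤ y := Real.sqrt_nonneg _
  have hs2 : s ^ 2 = D := Real.sq_sqrt hD.le
  have hw2 : w ^ 2 = l := Real.sq_sqrt hl0.le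
  have hy2 : y ^ 2 = X := Real.sq_sqrt hX0
  have hy1 : y ≤ 1304 / 1000 := by
    rw [hy]
    refine Real.sqrt_le_iff.2 ⟨by norm_num, ?_⟩
    linarith [show (17 / 10 : ℝ) ≤ (1304 / 1000) ^ 2 by norm_num]
  clear_value s w y
  -- the general step
  have hgen : ∀ j : ℕ, 1 ≤ j → j ≤ 2 * k → (2 * K - j) * w ≤ 2 * s := by
    intro j h1 h2
    have h1R : (1 : ℝ) ≤ (j : ℝ) := by exact_mod_cast h1
    have h2R : (j : ℝ) ≤ 2 * K := by rw [hK]; exact_mod_cast h2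
    have h3 : 0 ≤ (2 * K - j) * w := mul_nonneg (by linarith) hw0
    refine (sq_le_sq₀ h3 (by positivity)).1 ?_
    have h4 : (2 * K - j) ^ 2 ≤ 2 * D := by
      rw [hDeq]
      exact aux_e K j h1R h2R
    calc ((2 * K - j) * w) ^ 2 = (2 * K - j) ^ 2 * l := by rw [mul_pow, hw2]
      _ ≤ (2 * D) * 2 := mul_le_mul h4 hl2 hl0.le (by positivity)
      _ = (2 * s) ^ 2 := by rw [mul_pow, hs2]; ring
  have hc5 : (2 * K - (4 : ℕ)) * w ≤ ((1 - 7 * κ / 4) * (2 - 7 * κ / 8)) * s := by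
    have h3 : 0 ≤ (2 * K - (4 : ℕ)) * w := mul_nonneg (by push_cast; linarith) hw0
    have h3' : 0 ≤ ((1 - 7 * κ / 4) * (2 - 7 * κ / 8)) * s :=
      mul_nonneg (mul_nonneg (by linarith) (by linarith)) hs0.le
    refine (sq_le_sq₀ h3 h3').1 ?_
    have h4 : (2 * K - (4 : ℕ)) ^ 2 ≤ (1 - 7 * κ / 4) ^ 2 * (2 * D) := by
      have h5 : (1 - 7 * κ / 4) ^ 2 * (2 * D) = (K - 7 / 4) ^ 2 * (2 * (2 * K - 1)) / K := by
        rw [hDeq, hκ]; field_simp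
      rw [h5, le_div_iff₀ (by positivity)]
      push_cast
      linarith [aux_c K]
    have h6 : 2 * l ≤ (2 - 7 * κ / 8) ^ 2 := by
      rw [hl]; exact aux_d κ
    have h7 : 0 ≤ (1 - 7 * κ / 4) ^ 2 * D := by positivity
    calc ((2 * K - (4 : ℕ)) * w) ^ 2 = (2 * K - (4 : ℕ)) ^ 2 * l := by rw [mul_pow, hw2]
      _ ≤ ((1 - 7 * κ / 4) ^ 2 * (2 * D)) * l := mul_le_mul_of_nonneg_right h4 hl0.le
      _ = ((1 - 7 * κ / 4) ^ 2 * D) * (2 * l) := by ring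
      _ ≤ ((1 - 7 * κ / 4) ^ 2 * D) * (2 - 7 * κ / 8) ^ 2 := mul_le_mul_of_nonneg_left h6 h7
      _ = (((1 - 7 * κ / 4) * (2 - 7 * κ / 8)) * s) ^ 2 := by
          rw [mul_pow, mul_pow, hs2]; ring
  -- the coefficients
  have hr2 := choose_rec k 2 (by omega)
  have hr3 := choose_rec k 3 (by omega)
  have hr4 := choose_rec k 4 (by omega)
  have hr5 := choose_rec k 5 (by omega)
  norm_num at hr2 hr3 hr4 hr5
  rw [← hK] at hr2 hr3 hr4 hr5
  have hc4 : ((2 * k).choose 4 : ℝ) = D * ((2 * K - 2) * (2 * K - 3)) / 12 := by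
    linear_combination (1 / 4) * hr3 + (1 / 12) * (2 * K - 3) * hr2
  have hc6 : ((2 * k).choose 6 : ℝ) =
      D * ((2 * K - 2) * (2 * K - 3)) / 12 * ((2 * K - 4) * (2 * K - 5)) / 30 := by
    rw [← hc4]
    linear_combination (1 / 6) * hr5 + (1 / 30) * (2 * K - 5) * hr4
  have ha : (2 * K - 2) * (2 * K - 3) ≤ (1 - κ) ^ 2 * (2 * D) := by
    have h5 : (1 - κ) ^ 2 * (2 * D) = (K - 1) ^ 2 * (2 * (2 * K - 1)) / K := by
      rw [hDeq, hκ]; field_simp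
    rw [h5, le_div_iff₀ (by positivity)]
    linarith [aux_a K]
  have hb : (2 * K - 4) * (2 * K - 5) ≤ (1 - 2 * κ) ^ 2 * (2 * D) := by
    have h5 : (1 - 2 * κ) ^ 2 * (2 * D) = (K - 2) ^ 2 * (2 * (2 * K - 1)) / K := by
      rw [hDeq, hκ]; field_simp
    rw [h5, le_div_iff₀ (by positivity)]
    linarith [aux_b K]
  have hs4 : s ^ 4 = D ^ 2 := by rw [← hs2]; ring
  have hs6 : s ^ 6 = D ^ 3 := by rw [← hs2]; ring
  have hU4 : U k s w y 4 ≤ 1 / 6 * (1 - κ) ^ 2 * l * X ^ 2 := by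
    have e1 : U k s w y 4 = ((2 * K - 2) * (2 * K - 3)) / (12 * D) * l * X ^ 2 := by
      unfold U
      rw [hc4, hs4, show 4 - 2 = 2 from rfl, hw2, ← hy2]
      field_simp
    have e2 : ((2 * K - 2) * (2 * K - 3)) / (12 * D) ≤ 1 / 6 * (1 - κ) ^ 2 := by
      rw [div_le_iff₀ (by positivity)]
      linarith
    rw [e1]
    exact mul_le_mul_of_nonneg_right (mul_le_mul_of_nonneg_right e2 hl0.le) (by positivity)
  have hU6 : U k s w y 6 ≤ 1 / 90 * ((1 - κ) ^ 2 * (1 - 2 * κ) ^ 2) * l ^ 2 * X ^ 3 := by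
    have e1 : U k s w y 6 = ((2 * K - 2) * (2 * K - 3)) * ((2 * K - 4) * (2 * K - 5)) /
        (360 * D ^ 2) * l ^ 2 * X ^ 3 := by
      unfold U
      rw [hc6, hs6, show 6 - 2 = 4 from rfl, ← hw2, ← hy2]
      field_simp
      ring
    have e2 : ((2 * K - 2) * (2 * K - 3)) * ((2 * K - 4) * (2 * K - 5)) /
        (360 * D ^ 2) ≤ 1 / 90 * ((1 - κ) ^ 2 * (1 - 2 * κ) ^ 2) := by
      rw [div_le_iff₀ (by positivity)]
      have h1 := mul_le_mul ha hb (mul_nonneg (by linarith) (by linarith)) (by positivity)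
      calc _ ≤ (1 - κ) ^ 2 * (2 * D) * ((1 - 2 * κ) ^ 2 * (2 * D)) := h1
        _ = _ := by ring
    rw [e1]
    exact mul_le_mul_of_nonneg_right (mul_le_mul_of_nonneg_right e2 (by positivity))
      (by positivity)
  set f : ℝ := (1 - κ) ^ 2 * (1 - 2 * κ) ^ 2 with hf
  have hf0 : 0 ≤ f := by positivity
  have hst5 := U_step k hs0 hw0 hy0 4 (by norm_num) (by omega) _ hc5
  have hst : ∀ j : ℕ, 2 ≤ j → j ≤ 2 * k →
      U k s w y (j + 1) ≤ U k s w y j * (2 * y / ((j : ℝ) + 1)) := fun j h1 h2 =>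
    U_step k hs0 hw0 hy0 j h1 h2 2 (hgen j (by omega) h2)
  have hst7 := hst 6 (by norm_num) (by omega)
  have hst8 := hst 7 (by norm_num) (by omega)
  have hst9 := hst 8 (by norm_num) (by omega)
  norm_num at hst5 hst7 hst8 hst9
  have hX2y : X ^ 2 * y ≤ (X ^ 2 + X ^ 3) / 2 := aux_y X y 2 hX0 hy2
  have hX3y : X ^ 3 * y ≤ (X ^ 3 + X ^ 4) / 2 := aux_y X y 3 hX0 hy2
  have hX4y : X ^ 4 * y ≤ (X ^ 4 + X ^ 5) / 2 := aux_y X y 4 hX0 hy2
  have hc0 : 0 ≤ (1 - 7 * κ / 4) * (2 - 7 * κ / 8) := mul_nonneg (by linarith) (by linarith)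
  have hU5 : U k s w y 5 ≤
      1 / 60 * ((1 - κ) ^ 2 * l * ((1 - 7 * κ / 4) * (2 - 7 * κ / 8))) * (X ^ 2 + X ^ 3) := by
    have h1 : 0 ≤ (1 - 7 * κ / 4) * (2 - 7 * κ / 8) * y / 5 := by positivity
    have h2 : 0 ≤ (1 - κ) ^ 2 * l * ((1 - 7 * κ / 4) * (2 - 7 * κ / 8)) := by positivity
    calc U k s w y 5 ≤ U k s w y 4 * ((1 - 7 * κ / 4) * (2 - 7 * κ / 8) * y / 5) := hst5
      _ ≤ (1 / 6 * (1 - κ) ^ 2 * l * X ^ 2) * ((1 - 7 * κ / 4) * (2 - 7 * κ / 8) * y / 5) :=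
          mul_le_mul_of_nonneg_right hU4 h1
      _ = 1 / 30 * ((1 - κ) ^ 2 * l * ((1 - 7 * κ / 4) * (2 - 7 * κ / 8))) * (X ^ 2 * y) := by
          ring
      _ ≤ 1 / 30 * ((1 - κ) ^ 2 * l * ((1 - 7 * κ / 4) * (2 - 7 * κ / 8))) *
          ((X ^ 2 + X ^ 3) / 2) := mul_le_mul_of_nonneg_left hX2y (by positivity)
      _ = _ := by ring
  have hU6' : U k s w y 6 ≤ 4 / 90 * (f * X ^ 3) := by
    refine hU6.trans ?_
    have h1 : l ^ 2 ≤ 4 := aux_l l hl0 hl2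
    calc 1 / 90 * f * l ^ 2 * X ^ 3 = (1 / 90 * f * X ^ 3) * l ^ 2 := by ring
      _ ≤ (1 / 90 * f * X ^ 3) * 4 := mul_le_mul_of_nonneg_left h1 (by positivity)
      _ = _ := by ring
  have hU7 : U k s w y 7 ≤ 4 / 315 * (f * (X ^ 3 * y)) := by
    calc U k s w y 7 ≤ U k s w y 6 * (2 * y / 7) := hst7
      _ ≤ (4 / 90 * (f * X ^ 3)) * (2 * y / 7) :=
          mul_le_mul_of_nonneg_right hU6' (by positivity)
      _ = _ := by ring
  have hU8 : U k s w y 8 ≤ 1 / 315 * (f * X ^ 4) := by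
    calc U k s w y 8 ≤ U k s w y 7 * (2 * y / 8) := hst8
      _ ≤ (4 / 315 * (f * (X ^ 3 * y))) * (2 * y / 8) :=
          mul_le_mul_of_nonneg_right hU7 (by positivity)
      _ = 1 / 315 * (f * (X ^ 3 * y ^ 2)) := by ring
      _ = _ := by rw [hy2]; ring
  have hU9 : U k s w y 9 ≤ 2 / 2835 * (f * (X ^ 4 * y)) := by
    calc U k s w y 9 ≤ U k s w y 8 * (2 * y / 9) := hst9
      _ ≤ (1 / 315 * (f * X ^ 4)) * (2 * y / 9) :=
          mul_le_mul_of_nonneg_right hU8 (by positivity)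
      _ = _ := by ring
  have htail := tail (fun i => U k s w y (9 + i)) (2608 / 10000)
    (2 * k - 8) (by
      intro j hj
      have h1 := hst (9 + j) (by omega) (by omega)
      have h2 := U_nonneg k hs0 hw0 hy0 (9 + j)
      refine h1.trans ?_
      rw [mul_comm]
      refine mul_le_mul_of_nonneg_right ?_ h2
      rw [div_le_iff₀ (by positivity)]
      push_cast
      exact aux_r y j hy1 (Nat.cast_nonneg j))
  have hsplit : ∑ j ∈ Icc 4 (2 * k), U k s w y j =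
      U k s w y 4 + U k s w y 5 + U k s w y 6 + U k s w y 7 + U k s w y 8 +
        ∑ i ∈ range (2 * k - 8), U k s w y (9 + i) := by
    have h1 : Icc 4 (2 * k) = Ico 4 (2 * k + 1) := by
      ext x; simp [Nat.lt_succ_iff]
    rw [h1, sum_Ico_eq_sum_range, show 2 * k + 1 - 4 = 5 + (2 * k - 8) by omega,
      sum_range_add]
    simp [sum_range_succ]
    refine sum_congr rfl fun i _ => ?_
    rw [show 4 + (5 + i) = 9 + i by ring]
  have htl : ∑ i ∈ range (2 * k - 8), U k s w y (9 + i) ≤ 1 / 1000 * (f * (X ^ 4 * y)) := by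
    have h1 := U_nonneg k hs0 hw0 hy0 (9 + (2 * k - 8))
    have h2 : 0 ≤ f * (X ^ 4 * y) := by positivity
    simp only [add_zero] at htail
    linarith
  have hsum : ∑ j ∈ Icc 4 (2 * k), TK k j X ≤ ∑ j ∈ Icc 4 (2 * k), U k s w y j :=
    sum_le_sum hT
  have g1 : f * (X ^ 3 * y) ≤ f * ((X ^ 3 + X ^ 4) / 2) := mul_le_mul_of_nonneg_left hX3y hf0
  have g2 : f * (X ^ 4 * y) ≤ f * ((X ^ 4 + X ^ 5) / 2) := mul_le_mul_of_nonneg_left hX4y hf0
  have g3 : 0 ≤ f * X ^ 3 := by positivity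
  have g4 : 0 ≤ f * X ^ 4 := by positivity
  have hNb : Nb κ X = 1 + X + 9 / 100 * X ^ 2 + 1 / 6 * (1 - κ) ^ 2 * l * X ^ 2 +
      1 / 60 * ((1 - κ) ^ 2 * l * ((1 - 7 * κ / 4) * (2 - 7 * κ / 8))) * (X ^ 2 + X ^ 3) +
      1 / 90 * f * l ^ 2 * X ^ 3 + 127 / 20000 * (f * X ^ 3) + 201 / 20000 * (f * X ^ 4) +
      1 / 2000 * (f * X ^ 5) := by
    unfold Nb
    rw [hf, hl]
    ring
  rw [hNb]
  rw [hsplit] at hsum
  linarith

end Pool.Agent.N987.LK
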